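import Pool.Agent.W279.TriS.Defs

/-! SA-RECUR: every infinite set of indices has an infinite subset all of whose pairs have a large
invariant. -/

set_option autoImplicit false

namespace Pool.W335.SA

open Pool.Agent.W279.Tri Pool.Agent.W279.TriS Filter Topology

variable {L : Type*} [NontriviallyNormedField L]

/-- the invariants of all pairs of a tail are large -/
lemma tail_big (g : Fin 3 → Fin 3 → L) {U V : ℕ → Fin 2 → L}
    (hG : ∀ n, G g (U n) (V n) = 0)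
    (hdU : ∀ n m, n ≠ m → br (U n) (U m) ≠ 0) (hdV : ∀ n m, n ≠ m → br (V n) (V m) ≠ 0)
    {ξ η : Fin 2 → L} {φ : ℕ → ℕ} (hφ : StrictMono φ) (hη : η ≠ 0) (h0 : G g ξ η = 0)
    (hξl : Tendsto (U ∘ φ) atTop (𝓝 ξ)) (hηl : Tendsto (V ∘ φ) atTop (𝓝 η))
    {e : Fin 2 → L} (he : Pv g ξ η e ≠ 0) (B : ℝ) (hB : 0 < B) :
    ∃ K, ∀ k l, K ≤ k → k < l →
      B ^ 2 ≤ ‖Rr g (U (φ k)) (V (φ k)) (U (φ l)) (V (φ l))‖ := by
  obtain ⟨δ, hδ, hlow⟩ := lower g hη h0 he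
  have hpair : Tendsto (fun p : ℕ × ℕ => (U (φ p.1), V (φ p.1), V (φ p.2)))
      (atTop ×ˢ atTop) (𝓝 (ξ, η, η)) := by
    have a1 : Tendsto (fun p : ℕ × ℕ => U (φ p.1)) (atTop ×ˢ atTop) (𝓝 ξ) :=
      hξl.comp tendsto_fst
    have a2 : Tendsto (fun p : ℕ × ℕ => V (φ p.1)) (atTop ×ˢ atTop) (𝓝 η) :=
      hηl.comp tendsto_fst
    have a3 : Tendsto (fun p : ℕ × ℕ => V (φ p.2)) (atTop ×ˢ atTop) (𝓝 η) :=
      hηl.comp tendsto_snd
    exact a1.prodMk_nhds (a2.prodMk_nhds a3)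
  have hpair' : Tendsto (fun p : ℕ × ℕ => (U (φ p.2), V (φ p.2), V (φ p.1)))
      (atTop ×ˢ atTop) (𝓝 (ξ, η, η)) := by
    have a1 : Tendsto (fun p : ℕ × ℕ => U (φ p.2)) (atTop ×ˢ atTop) (𝓝 ξ) :=
      hξl.comp tendsto_snd
    have a2 : Tendsto (fun p : ℕ × ℕ => V (φ p.2)) (atTop ×ˢ atTop) (𝓝 η) :=
      hηl.comp tendsto_snd
    have a3 : Tendsto (fun p : ℕ × ℕ => V (φ p.1)) (atTop ×ˢ atTop) (𝓝 η) :=
      hηl.comp tendsto_fst
    exact a1.prodMk_nhds (a2.prodMk_nhds a3)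
  have hbrt : Tendsto (fun p : ℕ × ℕ => ‖br (U (φ p.1)) (U (φ p.2))‖) (atTop ×ˢ atTop) (𝓝 0) := by
    have hc : Continuous fun q : (Fin 2 → L) × (Fin 2 → L) => ‖br q.1 q.2‖ :=
      (continuous_br continuous_fst continuous_snd).norm
    have h1 := (hc.tendsto (ξ, ξ)).comp ((hξl.comp tendsto_fst).prodMk_nhds
      (hξl.comp (tendsto_snd (f := (atTop : Filter ℕ)) (g := (atTop : Filter ℕ)))))
    simpa [br_self, Function.comp_def] using h1
  have hev := (hpair.eventually hlow).and ((hpair'.eventually hlow).and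
    (hbrt.eventually_lt_const (show (0 : ℝ) < δ / B by positivity)))
  rw [prod_atTop_atTop_eq, eventually_atTop] at hev
  obtain ⟨⟨k1, k2⟩, hk⟩ := hev
  refine ⟨max k1 k2, fun k l hkK hkl => ?_⟩
  obtain ⟨q1, q2, q3⟩ := hk (k, l) ⟨(le_max_left _ _).trans hkK,
    ((le_max_right _ _).trans hkK).trans hkl.le⟩
  simp only at q1 q2 q3
  have q1' := q1 (hG _)
  have q2' := q2 (hG _)
  have hne : φ k ≠ φ l := (hφ hkl).ne
  have hbU : 0 < ‖br (U (φ k)) (U (φ l))‖ := norm_pos_iff.2 (hdU _ _ hne)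
  have hbV : 0 < ‖br (V (φ k)) (V (φ l))‖ := norm_pos_iff.2 (hdV _ _ hne)
  have hsw : ‖br (V (φ l)) (V (φ k))‖ = ‖br (V (φ k)) (V (φ l))‖ := by
    rw [br_swap, norm_neg]
  rw [hsw] at q1'
  have hBle : B ≤ δ / ‖br (U (φ k)) (U (φ l))‖ := by
    rw [lt_div_iff₀ hB] at q3
    rw [le_div_iff₀ hbU]
    linarith
  have hlarge : (δ / ‖br (U (φ k)) (U (φ l))‖) ^ 2 ≤
      ‖Rr g (U (φ k)) (V (φ k)) (U (φ l)) (V (φ l))‖ := by
    unfold Rr
    rw [norm_div, norm_mul, norm_mul, norm_pow, norm_pow, div_pow, div_le_div_iff₀ (by positivity)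
      (by positivity)]
    calc δ ^ 2 * (‖br (U (φ k)) (U (φ l))‖ ^ 2 * ‖br (V (φ k)) (V (φ l))‖ ^ 2)
        = ((δ * ‖br (V (φ k)) (V (φ l))‖) * (δ * ‖br (V (φ k)) (V (φ l))‖)) *
          ‖br (U (φ k)) (U (φ l))‖ ^ 2 := by ring
      _ ≤ _ := by gcongr
  exact le_trans (by gcongr) hlarge

theorem main : StmtRecur := by
  intro L _ _ g u v hO hsm B φ hφ
  choose a ha0 ha using fun n => exists_normalize (hO.hu0 n)
  choose b hb0 hb using fun n => exists_normalize (hO.hv0 n)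
  set U : ℕ → Fin 2 → L := fun n => a n • u n with hUdef
  set V : ℕ → Fin 2 → L := fun n => b n • v n with hVdef
  have hUV : ∀ n m, Rr g (U n) (V n) (U m) (V m) =
      Rr g (u n) (v n) (u m) (v m) := fun n m =>
    Rr_smul g _ _ _ _ (ha0 n) (hb0 n) (ha0 m) (hb0 m)
  have hG : ∀ n, G g (U n) (V n) = 0 := by
    intro n
    simp only [U, V, G_smul_left, G_smul_right, hO.G0 n]
    ring
  have hdU : ∀ n m, n ≠ m → br (U n) (U m) ≠ 0 := fun n m h => by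
    simp only [U, br_smul_left, br_smul_right]
    exact mul_ne_zero (ha0 _) (mul_ne_zero (ha0 _) (hO.hdu _ _ h))
  have hdV : ∀ n m, n ≠ m → br (V n) (V m) ≠ 0 := fun n m h => by
    simp only [V, br_smul_left, br_smul_right]
    exact mul_ne_zero (hb0 _) (mul_ne_zero (hb0 _) (hO.hdv _ _ h))
  obtain ⟨p, hmem, ψ, hψ, hlim⟩ := ((isCompact_sphere (0 : Fin 2 → L) 1).prod
    (isCompact_sphere (0 : Fin 2 → L) 1)).tendsto_subseq (x := fun n => (U (φ n), V (φ n)))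
    (fun n => by simp [U, V, ha, hb])
  obtain ⟨ξ, η⟩ := p
  have hξ1 : ‖ξ‖ = 1 := by simpa using hmem.1
  have hη1 : ‖η‖ = 1 := by simpa using hmem.2
  have hξ0 : ξ ≠ 0 := by rintro rfl; simp at hξ1
  have hη0 : η ≠ 0 := by rintro rfl; simp at hη1
  have hφψ : StrictMono (φ ∘ ψ) := hφ.comp hψ
  have hξl : Tendsto (U ∘ (φ ∘ ψ)) atTop (𝓝 ξ) := by
    have h1 := (continuous_fst.tendsto (ξ, η)).comp hlim
    exact h1
  have hηl : Tendsto (V ∘ (φ ∘ ψ)) atTop (𝓝 η) := by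
    have h1 := (continuous_snd.tendsto (ξ, η)).comp hlim
    exact h1
  have hGlim : G g ξ η = 0 := by
    have h1 := ((continuous_G g continuous_fst continuous_snd).tendsto (ξ, η)).comp hlim
    have h2 : ((fun x : (Fin 2 → L) × (Fin 2 → L) => G g x.1 x.2) ∘
        (fun n => (U (φ n), V (φ n))) ∘ ψ) = fun _ => 0 := by
      funext n
      exact hG (φ (ψ n))
    rw [h2] at h1
    exact (tendsto_nhds_unique h1 tendsto_const_nhds)
  have hB : 0 < |B| + 1 := by positivity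
  have hBB : B ≤ (|B| + 1) ^ 2 := by
    have := le_abs_self B
    nlinarith [abs_nonneg B]
  obtain ⟨K, hK⟩ : ∃ K, ∀ k l, K ≤ k → k < l →
      (|B| + 1) ^ 2 ≤ ‖Rr g (U ((φ ∘ ψ) k)) (V ((φ ∘ ψ) k)) (U ((φ ∘ ψ) l)) (V ((φ ∘ ψ) l))‖ := by
    rcases hsm ξ η hξ0 hη0 hGlim with ⟨e, he⟩ | ⟨e, he⟩
    · exact tail_big g hG hdU hdV hφψ hη0 hGlim hξl hηl he _ hB
    · obtain ⟨K, hK⟩ := tail_big (fun j k => g k j) (U := V) (V := U)
        (fun n => by rw [← G_swap]; exact hG n) hdV hdU hφψ hξ0 (by rw [← G_swap]; exact hGlim)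
        hηl hξl he _ hB
      refine ⟨K, fun k l h1 h2 => ?_⟩
      have := hK k l h1 h2
      rwa [Rr_transpose] at this
  refine ⟨fun i => ψ (K + i), fun i j hij => hψ (by omega), fun i j hij => ?_⟩
  have := hK (K + i) (K + j) (by omega) (by omega)
  rw [hUV] at this
  exact hBB.trans this

end Pool.W335.SA
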